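import Mathlib

/-!
Definitions for the question on grid-free affine hypersurfaces in `A^s x A^s` over the complex
numbers.
-/

set_option autoImplicit false

namespace Pool.Agent.Helper56Grid

open MvPolynomial

/-- Polynomials in the coordinates `x_1, ..., x_s` (indexed by `Sum.inl`) and `y_1, ..., y_s`
(indexed by `Sum.inr`) of `A^s x A^s`. -/
abbrev Poly (s : ℕ) := MvPolynomial (Fin s ⊕ Fin s) ℂ

/-- Points of `A^s x A^s`. -/
abbrev Pt (s : ℕ) := (Fin s → ℂ) × (Fin s → ℂ)

/-- The value `F(u, v)` of a polynomial at the point `(u, v)` of `A^s x A^s`. -/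
noncomputable def value {s : ℕ} (F : Poly s) (u v : Fin s → ℂ) : ℂ :=
  MvPolynomial.eval (Sum.elim u v) F

/-- `H` is an affine hypersurface: the zero set of a nonconstant polynomial. -/
def IsHypersurface {s : ℕ} (H : Set (Pt s)) : Prop :=
  ∃ G : Poly s, (∀ c : ℂ, G ≠ C c) ∧ H = {p | value G p.1 p.2 = 0}

/-- `Z` is an algebraic subset of `A^s x A^s`: the common zero set of a set of polynomials. -/
def IsAlgebraicSet {s : ℕ} (Z : Set (Pt s)) : Prop :=
  ∃ I : Set (Poly s), Z = {p | ∀ f ∈ I, value f p.1 p.2 = 0}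

/-- `Z` is irreducible as an algebraic set: nonempty, and not a union of two algebraic sets both
different from `Z`. -/
def IsIrreducibleSet {s : ℕ} (Z : Set (Pt s)) : Prop :=
  IsAlgebraicSet Z ∧ Z.Nonempty ∧
    ∀ A B : Set (Pt s), IsAlgebraicSet A → IsAlgebraicSet B → Z = A ∪ B → Z = A ∨ Z = B

/-- `V`, a subset of `P₁ x P₂`, is `(s, t)`-grid-free: there are no `S ⊆ P₁` with `s` elements and
`T ⊆ P₂` with `t` elements such that `S x T ⊆ V`. -/
def GridFree {P₁ P₂ : Type} (s t : ℕ) (V : Set (P₁ × P₂)) : Prop :=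
  ¬ ∃ (S : Finset P₁) (T : Finset P₂), S.card = s ∧ T.card = t ∧ ∀ u ∈ S, ∀ v ∈ T, (u, v) ∈ V

/-- `f` is a polynomial map from `A^s` to itself. -/
def IsPolyMap {s : ℕ} (f : (Fin s → ℂ) → (Fin s → ℂ)) : Prop :=
  ∃ P : Fin s → MvPolynomial (Fin s) ℂ, ∀ v i, f v i = MvPolynomial.eval v (P i)

/-- `σ` belongs to `Aut(A^s)`: it is a polynomial map with a polynomial inverse. -/
def IsPolyAut {s : ℕ} (σ : (Fin s → ℂ) ≃ (Fin s → ℂ)) : Prop :=
  IsPolyMap σ ∧ IsPolyMap σ.symm

/-- The degree of `F` in `y`: the largest total degree in `y_1, ..., y_s` of a monomial of `F`. -/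
noncomputable def degY {s : ℕ} (F : Poly s) : ℕ :=
  F.support.sup fun m => ∑ i, m (Sum.inr i)

/-- The assertion of the question for one pair `(s, t)`: there is `d` such that every irreducible
`(s, t)`-grid-free affine hypersurface `H` in `A^s x A^s` is of the form
`{(u, v) : F(u, σ(v)) = 0}` with `σ` in `Aut(A^s)` and `F` of degree at most `d` in `y`. -/
def BoundedUpToAut (s t : ℕ) : Prop :=
  ∃ d : ℕ, ∀ H : Set (Pt s), IsHypersurface H → IsIrreducibleSet H → GridFree s t H →
    ∃ (σ : (Fin s → ℂ) ≃ (Fin s → ℂ)) (F : Poly s), IsPolyAut σ ∧ degY F ≤ d ∧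
      H = {p | value F p.1 (σ p.2) = 0}

end Pool.Agent.Helper56Grid
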