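import Mathlib
import Pool.Agent.Helper56_Grid.Defs

set_option autoImplicit false

namespace Pool.Agent.Helper56Grid

open MvPolynomial

/-- the polynomial `1 + x_1 y_1 + x_2 y_1^b y_2` -/
noncomputable def G (b : ℕ) : Poly 2 :=
  1 + X (Sum.inl 0) * X (Sum.inr 0) + X (Sum.inl 1) * X (Sum.inr 0) ^ b * X (Sum.inr 1)

theorem value_G (b : ℕ) (u v : Fin 2 → ℂ) :
    value (G b) u v = 1 + u 0 * v 0 + u 1 * v 0 ^ b * v 1 := by
  simp [value, G]

/-- the hypersurface `1 + x_1 y_1 + x_2 y_1^b y_2 = 0` -/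
def Hb (b : ℕ) : Set (Pt 2) := {p | value (G b) p.1 p.2 = 0}

theorem mem_Hb (b : ℕ) (u v : Fin 2 → ℂ) :
    (u, v) ∈ Hb b ↔ 1 + u 0 * v 0 + u 1 * v 0 ^ b * v 1 = 0 := by
  rw [← value_G]
  rfl

theorem Hb_hyper (b : ℕ) : IsHypersurface (Hb b) := by
  refine ⟨G b, ?_, rfl⟩
  intro c hc
  have h1 : value (G b) (fun _ => 0) (fun _ => 0) = c := by rw [hc]; simp [value]
  have h2 : value (G b) ![1, 0] ![1, 0] = c := by rw [hc]; simp [value]
  rw [value_G] at h1 h2
  simp at h1 h2
  rw [← h1] at h2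
  norm_num at h2

theorem Hb_alg (b : ℕ) : IsAlgebraicSet (Hb b) := by
  refine ⟨{G b}, ?_⟩
  ext p
  simp [Hb]

/-- parametrisation of the hypersurface by `z, a, w`: `y_1 = exp (-z)`, `x_2 = a`, `y_2 = w`. -/
noncomputable def par (b : ℕ) (z a w : ℂ) : Pt 2 :=
  (![-(Complex.exp z) - a * Complex.exp (-z) ^ b * Complex.exp z * w, a], ![Complex.exp (-z), w])

theorem par_mem (b : ℕ) (z a w : ℂ) : par b z a w ∈ Hb b := by
  unfold par
  rw [mem_Hb]
  have h : Complex.exp z * Complex.exp (-z) = 1 := by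
    rw [← Complex.exp_add, add_neg_cancel, Complex.exp_zero]
  simp
  linear_combination (-1 - a * w * Complex.exp (-z) ^ b) * h

theorem par_surj {b : ℕ} (hb : b ≠ 0) (p : Pt 2) (hp : p ∈ Hb b) : ∃ z a w, p = par b z a w := by
  obtain ⟨u, v⟩ := p
  rw [mem_Hb] at hp
  have hv : v 0 ≠ 0 := by
    intro h0
    rw [h0, zero_pow hb] at hp
    norm_num at hp
  refine ⟨-Complex.log (v 0), u 1, v 1, ?_⟩
  have e1 : Complex.exp (Complex.log (v 0)) = v 0 := Complex.exp_log hv
  have e2 : Complex.exp (-Complex.log (v 0)) = (v 0)⁻¹ := by rw [Complex.exp_neg, e1]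
  unfold par
  rw [neg_neg, e1, e2]
  have h0 : u 0 = -(v 0)⁻¹ - u 1 * v 0 ^ b * (v 0)⁻¹ * v 1 := by
    field_simp
    linear_combination hp
  rw [← h0]
  congr 1
  · funext i; fin_cases i <;> rfl
  · funext i; fin_cases i <;> rfl

theorem Hb_irred {b : ℕ} (hb : b ≠ 0) : IsIrreducibleSet (Hb b) := by
  refine ⟨Hb_alg b, ⟨par b 0 0 0, par_mem b 0 0 0⟩, ?_⟩
  rintro A B ⟨I, hI⟩ ⟨J, hJ⟩ hAB
  by_contra hcon
  push Not at hcon
  obtain ⟨hA, hB⟩ := hcon
  have hA' : A ⊆ Hb b := by rw [hAB]; exact Set.subset_union_left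
  have hB' : B ⊆ Hb b := by rw [hAB]; exact Set.subset_union_right
  obtain ⟨p, hp, hpA⟩ : ∃ p ∈ Hb b, p ∉ A := by
    by_contra h
    push Not at h
    exact hA (Set.Subset.antisymm h hA')
  obtain ⟨q, hq, hqB⟩ : ∃ q ∈ Hb b, q ∉ B := by
    by_contra h
    push Not at h
    exact hB (Set.Subset.antisymm h hB')
  obtain ⟨f, hf, hfp⟩ : ∃ f ∈ I, value f p.1 p.2 ≠ 0 := by
    by_contra h
    push Not at h
    exact hpA (by rw [hI]; exact h)
  obtain ⟨g, hg, hgq⟩ : ∃ g ∈ J, value g q.1 q.2 ≠ 0 := by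
    by_contra h
    push Not at h
    exact hqB (by rw [hJ]; exact h)
  obtain ⟨z1, a1, w1, rfl⟩ := par_surj hb p hp
  obtain ⟨z2, a2, w2, rfl⟩ := par_surj hb q hq
  set path : ℂ → Pt 2 := fun t => par b (z1 + t * (z2 - z1)) (a1 + t * (a2 - a1))
    (w1 + t * (w2 - w1)) with hpath
  have han : ∀ h : Poly 2, AnalyticOnNhd ℂ (fun t => value h (path t).1 (path t).2) Set.univ := by
    intro h
    have := AnalyticOnNhd.aeval_mvPolynomial (𝕜 := ℂ) (s := Set.univ) (A := ℂ) (B := ℂ)
      (f := fun t : ℂ => (Sum.elim (path t).1 (path t).2 : Fin 2 ⊕ Fin 2 → ℂ)) (p := h) ?_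
    · exact this
    · intro i t _
      apply Differentiable.analyticAt
      rcases i with i | i
      · fin_cases i
        · simp only [hpath, par]
          simp
          fun_prop
        · simp only [hpath, par]
          simp
      · fin_cases i
        · simp only [hpath, par]
          simp
        · simp only [hpath, par]
          simp
  have hmul : ∀ t ∈ Set.univ, value f (path t).1 (path t).2 * value g (path t).1 (path t).2 = 0 := by
    intro t _
    have hmem : path t ∈ Hb b := par_mem b _ _ _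
    rw [hAB] at hmem
    rcases hmem with h | h
    · rw [hI] at h
      rw [h f hf, zero_mul]
    · rw [hJ] at h
      rw [h g hg, mul_zero]
  rcases AnalyticOnNhd.eq_zero_or_eq_zero_of_mul_eq_zero (han f) (han g) hmul
    isPreconnected_univ with h | h
  · apply hfp
    have := h 0 (Set.mem_univ _)
    simpa [hpath] using this
  · apply hgq
    have := h 1 (Set.mem_univ _)
    simpa [hpath] using this

theorem Hb_gridFree {b t : ℕ} (hb : b ≠ 0) (ht : 2 ≤ t) : GridFree 2 t (Hb b) := by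
  rintro ⟨S, T, hS, hT, hST⟩
  obtain ⟨x, hx, x', hx', hxx⟩ := Finset.one_lt_card.mp (by omega : 1 < S.card)
  obtain ⟨y, hy, y', hy', hyy⟩ := Finset.one_lt_card.mp (by omega : 1 < T.card)
  have h1 := (mem_Hb b x y).mp (hST x hx y hy)
  have h2 := (mem_Hb b x y').mp (hST x hx y' hy')
  have h3 := (mem_Hb b x' y).mp (hST x' hx' y hy)
  have h4 := (mem_Hb b x' y').mp (hST x' hx' y' hy')
  have hy0 : y 0 ≠ 0 := by
    intro h0
    rw [h0, zero_pow hb] at h1
    norm_num at h1
  have hy0' : y' 0 ≠ 0 := by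
    intro h0
    rw [h0, zero_pow hb] at h2
    norm_num at h2
  by_cases hd : x 1 = x' 1
  · -- then `(x 0 - x' 0) * y 0 = 0`
    have h5 : (x 0 - x' 0) * y 0 = 0 := by
      rw [hd] at h1
      linear_combination h1 - h3
    rcases mul_eq_zero.mp h5 with h6 | h6
    · apply hxx
      funext i
      fin_cases i
      · exact sub_eq_zero.mp h6
      · exact hd
    · exact hy0 h6
  · have hd' : x 1 - x' 1 ≠ 0 := sub_ne_zero.mpr hd
    -- determinant
    have h5 : (x 1 - x' 1) = (x 0 * x' 1 - x 1 * x' 0) * y 0 := by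
      linear_combination x 1 * h3 - x' 1 * h1
    have h5' : (x 1 - x' 1) = (x 0 * x' 1 - x 1 * x' 0) * y' 0 := by
      linear_combination x 1 * h4 - x' 1 * h2
    have hdet : (x 0 * x' 1 - x 1 * x' 0) ≠ 0 := by
      intro h0
      rw [h0, zero_mul] at h5
      exact hd' h5
    have e0 : y 0 = y' 0 := by
      apply mul_left_cancel₀ hdet
      rw [← h5, ← h5']
    have h6 : (x 1 - x' 1) * (y 0 ^ b * (y 1 - y' 1)) = 0 := by
      rw [← e0] at h2 h4
      linear_combination h1 - h2 - h3 + h4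
    have e1 : y 1 = y' 1 := by
      rcases mul_eq_zero.mp h6 with h7 | h7
      · exact absurd h7 hd'
      · rcases mul_eq_zero.mp h7 with h8 | h8
        · exact absurd h8 (pow_ne_zero _ hy0)
        · exact sub_eq_zero.mp h8
    apply hyy
    funext i
    fin_cases i
    · exact e0
    · exact e1

end Pool.Agent.Helper56Grid
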