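import Mathlib
import Pool.Agent.Helper56_Grid.Proof

set_option autoImplicit false

namespace Pool.Agent.Helper56Grid

open MvPolynomial

theorem eval_aeval {ι : Type} (f : ι → Polynomial ℂ) (F : MvPolynomial ι ℂ) (z : ℂ) :
    Polynomial.eval z (MvPolynomial.aeval f F) =
      MvPolynomial.eval (fun i => Polynomial.eval z (f i)) F := by
  induction F using MvPolynomial.induction_on with
  | C a => simp
  | add p q hp hq => simp [hp, hq]
  | mul_X p i hp => simp [hp]

/-- restriction of `F` to `x = u` and `y` on the line `P + z Q` -/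
noncomputable def restr {s : ℕ} (F : Poly s) (u P Q : Fin s → ℂ) : Polynomial ℂ :=
  MvPolynomial.aeval (Sum.elim (fun i => Polynomial.C (u i))
    (fun i => Polynomial.C (P i) + Polynomial.C (Q i) * Polynomial.X) :
      Fin s ⊕ Fin s → Polynomial ℂ) F

theorem eval_restr {s : ℕ} (F : Poly s) (u P Q : Fin s → ℂ) (z : ℂ) :
    Polynomial.eval z (restr F u P Q) = value F u (fun i => P i + Q i * z) := by
  unfold restr value
  rw [eval_aeval]
  congr 2
  funext i
  rcases i with i | i <;> simp

theorem natDegree_restr {s : ℕ} (F : Poly s) (u P Q : Fin s → ℂ) :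
    (restr F u P Q).natDegree ≤ degY F := by
  unfold restr
  rw [MvPolynomial.aeval_def, MvPolynomial.eval₂_eq']
  apply Polynomial.natDegree_sum_le_of_forall_le
  intro m hm
  have h1 : ∑ i, m (Sum.inr i) ≤ degY F := Finset.le_sup (f := fun m => ∑ i, m (Sum.inr i)) hm
  refine le_trans ?_ h1
  rw [Fintype.prod_sum_type]
  refine le_trans Polynomial.natDegree_mul_le ?_
  refine le_trans (add_le_add_right Polynomial.natDegree_mul_le _) ?_
  have e1 : (algebraMap ℂ (Polynomial ℂ) (coeff m F)).natDegree = 0 := by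
    exact Polynomial.natDegree_C _
  have e2 : (∏ x : Fin s, (Sum.elim (fun i => Polynomial.C (u i))
      (fun i => Polynomial.C (P i) + Polynomial.C (Q i) * Polynomial.X) (Sum.inl x) :
        Polynomial ℂ) ^ m (Sum.inl x)).natDegree = 0 := by
    simp only [Sum.elim_inl]
    have : (∏ x : Fin s, (Polynomial.C (u x) : Polynomial ℂ) ^ m (Sum.inl x)) =
        Polynomial.C (∏ x : Fin s, u x ^ m (Sum.inl x)) := by
      simp [map_prod]
    rw [this, Polynomial.natDegree_C]
  have e3 : (∏ x : Fin s, (Sum.elim (fun i => Polynomial.C (u i))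
      (fun i => Polynomial.C (P i) + Polynomial.C (Q i) * Polynomial.X) (Sum.inr x) :
        Polynomial ℂ) ^ m (Sum.inr x)).natDegree ≤ ∑ i, m (Sum.inr i) := by
    simp only [Sum.elim_inr]
    refine le_trans (Polynomial.natDegree_prod_le _ _) ?_
    apply Finset.sum_le_sum
    intro i _
    refine le_trans Polynomial.natDegree_pow_le ?_
    have : (Polynomial.C (P i) + Polynomial.C (Q i) * Polynomial.X : Polynomial ℂ).natDegree
        ≤ 1 := by
      rw [add_comm]
      exact Polynomial.natDegree_linear_le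
    calc m (Sum.inr i) * _ ≤ m (Sum.inr i) * 1 := Nat.mul_le_mul_left _ this
      _ = m (Sum.inr i) := mul_one _
  rw [e1, e2, zero_add, zero_add]
  exact e3

/-- generic translates of a polynomial have only simple roots -/
theorem exists_simple (R : Polynomial ℂ) (hR : 1 ≤ R.natDegree) :
    ∃ c : ℂ, c ≠ 0 ∧ (R - Polynomial.C c).roots.toFinset.card = R.natDegree := by
  classical
  obtain ⟨c, hc⟩ := Infinite.exists_notMem_finset
    (insert 0 ((Polynomial.derivative R).roots.toFinset.image fun r => Polynomial.eval r R))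
  rw [Finset.mem_insert, not_or] at hc
  obtain ⟨hc0, hc⟩ := hc
  refine ⟨c, hc0, ?_⟩
  have hne : R - Polynomial.C c ≠ 0 := by
    intro h
    have : (R - Polynomial.C c).natDegree = 0 := by rw [h]; simp
    rw [Polynomial.natDegree_sub_C] at this
    omega
  have hder : Polynomial.derivative R ≠ 0 := by
    intro h
    have := Polynomial.derivative_eq_zero.mp h
    omega
  have hnodup : (R - Polynomial.C c).roots.Nodup := by
    rw [Multiset.nodup_iff_count_le_one]
    intro r
    rw [Polynomial.count_roots]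
    by_contra hcon
    push Not at hcon
    rw [Polynomial.one_lt_rootMultiplicity_iff_isRoot hne] at hcon
    obtain ⟨h1, h2⟩ := hcon
    apply hc
    rw [Finset.mem_image]
    refine ⟨r, ?_, ?_⟩
    · rw [Multiset.mem_toFinset, Polynomial.mem_roots hder]
      simpa using h2
    · simp only [Polynomial.IsRoot.def, Polynomial.eval_sub, Polynomial.eval_C] at h1
      exact sub_eq_zero.mp h1
  rw [Multiset.toFinset_card_of_nodup hnodup, IsAlgClosed.card_roots_eq_natDegree,
    Polynomial.natDegree_sub_C]

theorem Hb_bound {b : ℕ} (hb : b ≠ 0) (σ : (Fin 2 → ℂ) ≃ (Fin 2 → ℂ)) (hσ : IsPolyAut σ)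
    (F : Poly 2) (h : Hb b = {p | value F p.1 (σ p.2) = 0}) : b ≤ degY F := by
  classical
  obtain ⟨T, hT⟩ := hσ.2
  set P : Fin 2 → ℂ := σ ![0, 1] with hP
  set Q : Fin 2 → ℂ := fun i => σ ![1, 1] i - σ ![0, 1] i with hQ
  -- the two coordinates of the inverse on the line
  set lin : Fin 2 → Polynomial ℂ :=
    fun i => Polynomial.C (P i) + Polynomial.C (Q i) * Polynomial.X with hlin
  have hlinev : ∀ z, (fun i => Polynomial.eval z (lin i)) = fun i => P i + Q i * z := by
    intro z
    funext i
    simp [hlin]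
  set p : Polynomial ℂ := MvPolynomial.aeval lin (T 0) with hp
  set q : Polynomial ℂ := MvPolynomial.aeval lin (T 1) with hq
  have hpe : ∀ z, Polynomial.eval z p = σ.symm (fun i => P i + Q i * z) 0 := by
    intro z
    rw [hp, eval_aeval, hlinev, hT]
  have hqe : ∀ z, Polynomial.eval z q = σ.symm (fun i => P i + Q i * z) 1 := by
    intro z
    rw [hq, eval_aeval, hlinev, hT]
  have l0 : (fun i => P i + Q i * 0) = σ ![0, 1] := by
    funext i; simp [hP]
  have l1 : (fun i => P i + Q i * 1) = σ ![1, 1] := by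
    funext i; simp [hP, hQ]
  have p0 : Polynomial.eval 0 p = 0 := by rw [hpe, l0]; simp
  have p1 : Polynomial.eval 1 p = 1 := by rw [hpe, l1]; simp
  have q0 : Polynomial.eval 0 q = 1 := by rw [hqe, l0]; simp
  have hpdeg : 1 ≤ p.natDegree := by
    by_contra hcon
    have h0 : p.natDegree = 0 := by omega
    rw [Polynomial.eq_C_of_natDegree_eq_zero h0] at p0 p1
    rw [Polynomial.eval_C] at p0 p1
    rw [p0] at p1
    norm_num at p1
  have hpne : p ≠ 0 := by
    intro h0; rw [h0] at p1; simp at p1
  have hqne : q ≠ 0 := by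
    intro h0; rw [h0] at q0; simp at q0
  set R : Polynomial ℂ := p ^ b * q with hR
  have hRdeg : b ≤ R.natDegree := by
    rw [hR, Polynomial.natDegree_mul (pow_ne_zero _ hpne) hqne, Polynomial.natDegree_pow]
    nlinarith [hpdeg, Nat.zero_le q.natDegree, Nat.zero_le b]
  obtain ⟨c, hc0, hc⟩ := exists_simple R (by omega)
  -- the slice `x = (0, -1/c)`
  set u : Fin 2 → ℂ := ![0, -c⁻¹] with hu
  set Φ := restr F u P Q with hΦ
  have key : ∀ z, Polynomial.eval z Φ = 0 ↔ Polynomial.eval z R = c := by
    intro z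
    rw [hΦ, eval_restr]
    set w : Fin 2 → ℂ := fun i => P i + Q i * z with hw
    have h1 : (u, σ.symm w) ∈ Hb b ↔ value F u (σ (σ.symm w)) = 0 := by
      rw [h]
      rfl
    rw [Equiv.apply_symm_apply] at h1
    rw [← h1, mem_Hb, hR, Polynomial.eval_mul, Polynomial.eval_pow, hpe, hqe]
    simp only [hu, Matrix.cons_val_zero, Matrix.cons_val_one, zero_mul, add_zero]
    constructor
    · intro h2
      field_simp at h2
      linear_combination (-1 : ℂ) * h2
    · intro h2
      have h3 : -c⁻¹ * σ.symm w 0 ^ b * σ.symm w 1 = -1 := by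
        rw [mul_assoc, h2]
        field_simp
      rw [h3]
      ring
  have hΦne : Φ ≠ 0 := by
    intro h0
    have h1 := (key 0).mp (by rw [h0]; simp)
    rw [hR, Polynomial.eval_mul, Polynomial.eval_pow, p0, zero_pow hb, zero_mul] at h1
    exact hc0 h1.symm
  have hRne : R - Polynomial.C c ≠ 0 := by
    intro h0
    rw [h0] at hc
    simp at hc
    omega
  have hsub : (R - Polynomial.C c).roots.toFinset ⊆ Φ.roots.toFinset := by
    intro z hz
    rw [Multiset.mem_toFinset, Polynomial.mem_roots hRne] at hz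
    rw [Multiset.mem_toFinset, Polynomial.mem_roots hΦne]
    rw [Polynomial.IsRoot.def, Polynomial.eval_sub, Polynomial.eval_C, sub_eq_zero] at hz
    exact (key z).mpr hz
  calc b ≤ R.natDegree := hRdeg
    _ = (R - Polynomial.C c).roots.toFinset.card := hc.symm
    _ ≤ Φ.roots.toFinset.card := Finset.card_le_card hsub
    _ ≤ Φ.roots.card := Multiset.toFinset_card_le _
    _ ≤ Φ.natDegree := Polynomial.card_roots' _
    _ ≤ degY F := natDegree_restr F u P Q

theorem main (t : ℕ) (ht : 2 ≤ t) : ¬ BoundedUpToAut 2 t := by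
  rintro ⟨d, hd⟩
  obtain ⟨σ, F, hσ, hF, h⟩ := hd (Hb (d + 1)) (Hb_hyper _) (Hb_irred (by omega))
    (Hb_gridFree (by omega) ht)
  have := Hb_bound (by omega) σ hσ F h
  omega

end Pool.Agent.Helper56Grid
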